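import Mathlib
import Pool.Agent.TH996.Urn.Basic

/-! # The multi-type urn process on cycles: definitions and statements of the lemmas -/

set_option autoImplicit false

open Finset Pool.Agent.TH996.Urn

namespace Pool.Agent.Y381.UC

variable {n s : ℕ}

/-- number of balls at a vertex -/
def nb (x : Config (Fin (n + 4)) s) (v : Fin (n + 4)) : ℕ := ∑ c, x v c

/-- the colouring of all vertices is compatible with the colours of the balls -/
def Compat (x : Config (Fin (n + 4)) s) (χ : Fin (n + 4) → Fin s) : Prop :=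
  ∀ v c, 0 < x v c → c = χ v

open Classical in
/-- number of colour changes around the cycle -/
noncomputable def cuts (χ : Fin (n + 4) → Fin s) : ℕ :=
  (univ.filter (fun v => χ v ≠ χ (v + 1))).card

open Classical in
/-- sign of the edge from `v` to `v + 1` -/
noncomputable def tau (χ : Fin (n + 4) → Fin s) (v : Fin (n + 4)) : ℝ :=
  if χ v = χ (v + 1) then 1 else -1

/-- the angle -/
noncomputable def th (n m : ℕ) : ℝ := if Even m then 0 else Real.pi / (n + 4)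

/-- the growth rate -/
noncomputable def lam (n m : ℕ) : ℝ := 2 * Real.cos (th n m)

/-- the phase of one step -/
noncomputable def om (n m : ℕ) : ℂ := Complex.exp (th n m * Complex.I)

/-- `u` is a phase for the colouring `χ` -/
def IsPhase (χ : Fin (n + 4) → Fin s) (u : Fin (n + 4) → ℂ) : Prop :=
  (∀ v, ‖u v‖ = 1) ∧ ∀ v, u (v + 1) = (tau χ v : ℂ) * om n (cuts χ) * u v

/-- the main statistic -/
noncomputable def WW (x : Config (Fin (n + 4)) s) (u : Fin (n + 4) → ℂ) : ℂ :=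
  ∑ v, (nb x v : ℂ) * u v

/-- sum of squares -/
noncomputable def ZZ (x : Config (Fin (n + 4)) s) : ℝ := ∑ v, (nb x v : ℝ) ^ 2

/-- the quadratic form of the signed cycle -/
noncomputable def MM (x : Config (Fin (n + 4)) s) (χ : Fin (n + 4) → Fin s) : ℝ :=
  2 * ∑ v, tau χ v * (nb x v * nb x (v + 1))

/-- upper bound of the quadratic form -/
noncomputable def mu (n m : ℕ) : ℝ :=
  if Even m then 2 * Real.cos (Real.pi / (n + 4)) else 2 * Real.cos (Real.pi / (n + 3))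

open Classical in
/-- the colouring after a ball at `v` has been selected -/
noncomputable def upd (x : Config (Fin (n + 4)) s) (χ : Fin (n + 4) → Fin s) (v : Fin (n + 4)) :
    Fin (n + 4) → Fin s :=
  fun w => if (w = v + 1 ∨ v = w + 1) ∧ nb x w = 0 then χ v else χ w

/-- phases exist -/
def S_PHE : Prop := ∀ (n s : ℕ) (χ : Fin (n + 4) → Fin s), ∃ u, IsPhase χ u

/-- phases are unique up to a constant -/
def S_PHU : Prop := ∀ (n s : ℕ) (χ : Fin (n + 4) → Fin s) (u u' : Fin (n + 4) → ℂ),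
  IsPhase χ u → IsPhase χ u' → ∃ c : ℂ, ‖c‖ = 1 ∧ ∀ v, u' v = c * u v

/-- recolouring one vertex with the colour of a neighbour -/
def S_UPD : Prop := ∀ (n s : ℕ) (χ : Fin (n + 4) → Fin s) (v w : Fin (n + 4)),
  (w = v + 1 ∨ v = w + 1) →
    cuts (Function.update χ w (χ v)) ≤ cuts χ ∧
    (cuts (Function.update χ w (χ v)) = cuts χ → ∀ u, IsPhase χ u →
      ∃ u', IsPhase (Function.update χ w (χ v)) u' ∧ ∀ z, z ≠ w → u' z = u z)

/-- the numbers of balls after one step -/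
def S_NB : Prop := ∀ (n s : ℕ) (x : Config (Fin (n + 4)) s) (χ : Fin (n + 4) → Fin s)
  (v w : Fin (n + 4)) (c : Fin s), Compat x χ → 0 < x v c →
    (¬ (w = v + 1 ∨ v = w + 1) →
      nb (step (SimpleGraph.cycleGraph (n + 4)) x v c) w = nb x w) ∧
    ((w = v + 1 ∨ v = w + 1) → nb x w = 0 →
      nb (step (SimpleGraph.cycleGraph (n + 4)) x v c) w = 1) ∧
    ((w = v + 1 ∨ v = w + 1) → χ w = χ v →
      nb (step (SimpleGraph.cycleGraph (n + 4)) x v c) w = nb x w + 1) ∧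
    ((w = v + 1 ∨ v = w + 1) → χ w ≠ χ v → nb x w ≠ 0 →
      nb (step (SimpleGraph.cycleGraph (n + 4)) x v c) w + 1 = nb x w) ∧
    Compat (step (SimpleGraph.cycleGraph (n + 4)) x v c) (upd x χ v)

/-- the two neighbours of `v` are different from each other and from `v`; the colouring and the
statistic after one step -/
def S_ST : Prop := ∀ (n s : ℕ) (x : Config (Fin (n + 4)) s) (χ : Fin (n + 4) → Fin s)
  (v : Fin (n + 4)) (c : Fin s), Compat x χ → 0 < x v c →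
    cuts (upd x χ v) ≤ cuts χ ∧
    (cuts (upd x χ v) = cuts χ → ∀ u, IsPhase χ u → ∃ u', IsPhase (upd x χ v) u' ∧
      WW (step (SimpleGraph.cycleGraph (n + 4)) x v c) u' = WW x u + (lam n (cuts χ) : ℂ) * u v)

/-- total number of balls and sum of squares after one step -/
def S_TZ : Prop := ∀ (n s : ℕ) (x : Config (Fin (n + 4)) s) (χ : Fin (n + 4) → Fin s),
  Compat x χ → 0 < total x →
    (∀ v c, 0 < x v c →
      |(total (step (SimpleGraph.cycleGraph (n + 4)) x v c) : ℝ) - total x| ≤ 2) ∧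
    ∑ v, ∑ c, (x v c : ℝ) / (total x : ℝ) *
      ZZ (step (SimpleGraph.cycleGraph (n + 4)) x v c) = ZZ x + 2 * MM x χ / total x + 2

/-- enough colour changes -/
def S_CUT : Prop := ∀ (n s : ℕ) (χ : Fin (n + 4) → Fin s), (∃ v w, χ v ≠ χ w) →
  ∃ j : Fin (n + 4) → ℕ,
    (∀ v, 1 ≤ j v) ∧ (∀ v, j v + 1 ≤ if Even (cuts χ) then n + 4 else n + 3) ∧
    ∀ v, (χ v = χ (v + 1) → j (v + 1) = j v + 1) ∧ (χ v ≠ χ (v + 1) → j (v + 1) = 1)

/-- the inequality for the quadratic form -/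
def S_QF : Prop := ∀ (n L : ℕ) (t : Fin (n + 4) → Prop) [DecidablePred t]
  (a : Fin (n + 4) → ℝ) (j : Fin (n + 4) → ℕ), (∀ v, 0 ≤ a v) → (∀ v, 1 ≤ j v) →
  (∀ v, j v + 1 ≤ L) → (∀ v, t v → j (v + 1) = j v + 1) → (∀ v, ¬ t v → j (v + 1) = 1) →
  2 * ∑ v, (if t v then (1 : ℝ) else -1) * (a v * a (v + 1)) ≤
    2 * Real.cos (Real.pi / L) * ∑ v, a v ^ 2

/-- the logarithm of the denominator -/
def S_LD : Prop := ∀ (ι : Type) [Fintype ι] (p : ι → ℝ) (T l : ℝ) (W : ℂ) (u : ι → ℂ)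
  (T' : ι → ℝ), (∀ i, 0 ≤ p i) → ∑ i, p i = 1 → 100000 ≤ T → Real.sqrt 2 ≤ l → l ≤ 2 →
  (∀ i, ‖u i‖ = 1) → ∑ i, (p i : ℂ) * u i = W / T → (∀ i, |T' i - T| ≤ 2) →
  ∑ i, p i * (- Real.log (‖W + l * u i‖ ^ 2 + 1000 * T' i)) ≤
    - Real.log (‖W‖ ^ 2 + 1000 * T) - 2 * l / T + 6100 / (‖W‖ ^ 2 + 1000 * T)

/-- the quotient -/
def S_Q : Prop := ∀ (ι : Type) [Fintype ι] (p : ι → ℝ) (T l : ℝ) (W : ℂ) (u : ι → ℂ)
  (T' : ι → ℝ), (∀ i, 0 ≤ p i) → ∑ i, p i = 1 → 100000 ≤ T → Real.sqrt 2 ≤ l → l ≤ 2 →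
  (∀ i, ‖u i‖ = 1) → ∑ i, (p i : ℂ) * u i = W / T → (∀ i, |T' i - T| ≤ 2) →
  ∑ i, p i * (T' i / (‖W + l * u i‖ ^ 2 + 1000 * T' i)) ≤
    T / (‖W‖ ^ 2 + 1000 * T) - (1 / 1000) / (‖W‖ ^ 2 + 1000 * T)

end Pool.Agent.Y381.UC
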