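import Pool.Agent.Y381.UC.Defs

/-! # The drift of the Lyapunov function, analytic part -/

set_option autoImplicit false

open Finset Pool.Agent.TH996.Urn

namespace Pool.Agent.Y381.UC

/-- the main function -/
noncomputable def Psi (Z T w : ℝ) : ℝ :=
  Real.log Z - Real.log (w + 1000 * T) + 6100000 * (T / (w + 1000 * T))

theorem log_mean {ι : Type} [Fintype ι] (p Z' : ι → ℝ) (Z b : ℝ) (h0 : ∀ i, 0 ≤ p i)
    (h1 : ∑ i, p i = 1) (hZ : 0 < Z) (hZ' : ∀ i, 0 < Z' i) (hb : ∑ i, p i * Z' i ≤ Z + b) :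
    ∑ i, p i * Real.log (Z' i) ≤ Real.log Z + b / Z := by
  have h : ∀ i, p i * Real.log (Z' i) ≤ p i * (Real.log Z - 1) + (p i * Z' i) / Z := by
    intro i
    have h2 := Real.log_le_sub_one_of_pos (div_pos (hZ' i) hZ)
    rw [Real.log_div (hZ' i).ne' hZ.ne'] at h2
    have h3 : Real.log (Z' i) ≤ (Real.log Z - 1) + Z' i / Z := by linarith
    calc p i * Real.log (Z' i) ≤ p i * ((Real.log Z - 1) + Z' i / Z) :=
          mul_le_mul_of_nonneg_left h3 (h0 i)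
      _ = p i * (Real.log Z - 1) + (p i * Z' i) / Z := by ring
  calc ∑ i, p i * Real.log (Z' i) ≤ ∑ i, (p i * (Real.log Z - 1) + (p i * Z' i) / Z) :=
        sum_le_sum fun i _ => h i
    _ = (Real.log Z - 1) + (∑ i, p i * Z' i) / Z := by
        rw [sum_add_distrib, ← sum_mul, h1, one_mul, sum_div]
    _ ≤ (Real.log Z - 1) + (Z + b) / Z := by gcongr
    _ = Real.log Z + b / Z := by
        field_simp
        ring

theorem drift (hLD : S_LD) (hQ : S_Q) {ι : Type} [Fintype ι] (p : ι → ℝ) (T l m Z κ : ℝ) (W : ℂ)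
    (u : ι → ℂ) (T' Z' : ι → ℝ) (h0 : ∀ i, 0 ≤ p i) (h1 : ∑ i, p i = 1) (hT : 100000 ≤ T)
    (hl : Real.sqrt 2 ≤ l) (hl2 : l ≤ 2) (hu : ∀ i, ‖u i‖ = 1)
    (hW : ∑ i, (p i : ℂ) * u i = W / T) (hT' : ∀ i, |T' i - T| ≤ 2) (hκ : 0 < κ)
    (hZ : T ^ 2 / κ ≤ Z) (hZ' : ∀ i, 0 < Z' i)
    (hm : ∑ i, p i * Z' i ≤ Z + 2 * (m * Z) / T + 2) :
    ∑ i, p i * Psi (Z' i) (T' i) (‖W + l * u i‖ ^ 2) ≤
      Psi Z T (‖W‖ ^ 2) + 2 * m / T + 2 * κ / T ^ 2 - 2 * l / T := by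
  have hTp : 0 < T := by linarith
  have hZp : 0 < Z := lt_of_lt_of_le (by positivity) hZ
  have hD : 0 < ‖W‖ ^ 2 + 1000 * T := by positivity
  have e1 := log_mean p Z' Z (2 * (m * Z) / T + 2) h0 h1 hZp hZ' (by linarith)
  have e2 := hLD ι p T l W u T' h0 h1 hT hl hl2 hu hW hT'
  have e3 := hQ ι p T l W u T' h0 h1 hT hl hl2 hu hW hT'
  have e4 : (2 * (m * Z) / T + 2) / Z ≤ 2 * m / T + 2 * κ / T ^ 2 := by
    have : (2 * (m * Z) / T + 2) / Z = 2 * m / T + 2 / Z := by field_simp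
    rw [this]
    have : 2 / Z ≤ 2 / (T ^ 2 / κ) := by gcongr
    have h5 : 2 / (T ^ 2 / κ) = 2 * κ / T ^ 2 := by field_simp
    linarith
  have e5 : ∑ i, p i * Psi (Z' i) (T' i) (‖W + l * u i‖ ^ 2) =
      ∑ i, p i * Real.log (Z' i) +
      ∑ i, p i * (- Real.log (‖W + l * u i‖ ^ 2 + 1000 * T' i)) +
      6100000 * ∑ i, p i * (T' i / (‖W + l * u i‖ ^ 2 + 1000 * T' i)) := by
    rw [mul_sum, ← sum_add_distrib, ← sum_add_distrib]
    refine sum_congr rfl fun i _ => ?_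
    unfold Psi
    ring
  rw [e5]
  unfold Psi
  have e6 : 6100000 * (∑ i, p i * (T' i / (‖W + l * u i‖ ^ 2 + 1000 * T' i))) ≤
      6100000 * (T / (‖W‖ ^ 2 + 1000 * T)) - 6100 / (‖W‖ ^ 2 + 1000 * T) := by
    have := mul_le_mul_of_nonneg_left e3 (by norm_num : (0 : ℝ) ≤ 6100000)
    refine this.trans (le_of_eq ?_)
    field_simp
    ring
  linarith

theorem psi_lower {Z T w κ : ℝ} (hT : 5000 ≤ T) (hκ : 0 < κ) (hZ : T ^ 2 / κ ≤ Z)
    (hw : w + 1000 * T ≤ 2 * T ^ 2) (hw0 : 0 ≤ w) : 0 ≤ Psi Z T w + Real.log (2 * κ) := by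
  have hTp : 0 < T := by linarith
  have h1 : Real.log (T ^ 2 / κ) ≤ Real.log Z := Real.log_le_log (by positivity) hZ
  have h2 : Real.log (w + 1000 * T) ≤ Real.log (2 * T ^ 2) := Real.log_le_log (by positivity) hw
  have h3 : 0 ≤ T / (w + 1000 * T) := by positivity
  rw [Real.log_div (by positivity) hκ.ne'] at h1
  rw [Real.log_mul (by norm_num) (by positivity)] at h2
  rw [Real.log_mul (by norm_num) hκ.ne']
  unfold Psi
  linarith

theorem psi_upper {Z T w : ℝ} (hT : 1 ≤ T) (hZ0 : 0 < Z) (hZ : Z ≤ T ^ 2) (hw0 : 0 ≤ w) :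
    Psi Z T w ≤ Real.log T + 6100 := by
  have hTp : 0 < T := by linarith
  have h1 : Real.log Z ≤ Real.log (T ^ 2) := Real.log_le_log hZ0 hZ
  have h2 : Real.log T ≤ Real.log (w + 1000 * T) := Real.log_le_log hTp (by linarith)
  have h3 : T / (w + 1000 * T) ≤ 1 / 1000 := by
    rw [div_le_div_iff₀ (by positivity) (by norm_num)]
    linarith
  rw [Real.log_pow] at h1
  push_cast at h1
  unfold Psi
  linarith

end Pool.Agent.Y381.UC
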