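import Pool.Agent.Y381.UC.Dr
import Pool.Agent.TH996.Urn.Crit

/-! # The drift of the Lyapunov function on cycles -/

set_option autoImplicit false

open Finset Pool.Agent.TH996.Urn

namespace Pool.Agent.Y381.UC

/-- the gap -/
noncomputable def gap (n : ℕ) : ℝ :=
  min (2 - 2 * Real.cos (Real.pi / (n + 4)))
    (2 * Real.cos (Real.pi / (n + 4)) - 2 * Real.cos (Real.pi / (n + 3)))

theorem gap_pos (n : ℕ) : 0 < gap n := by
  have hn : (0 : ℝ) ≤ n := Nat.cast_nonneg n
  have hpi := Real.pi_pos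
  have h1 : Real.cos (Real.pi / (n + 4)) < 1 := by
    have h := Real.cos_lt_cos_of_nonneg_of_le_pi (x := 0) (y := Real.pi / (n + 4)) le_rfl
      (by rw [div_le_iff₀ (by positivity)]; nlinarith) (by positivity)
    rwa [Real.cos_zero] at h
  have h2 : Real.cos (Real.pi / (n + 3)) < Real.cos (Real.pi / (n + 4)) := by
    apply Real.cos_lt_cos_of_nonneg_of_le_pi (by positivity)
    · rw [div_le_iff₀ (by positivity)]
      nlinarith
    · apply div_lt_div_of_pos_left hpi (by positivity) (by linarith)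
  unfold gap
  rw [lt_min_iff]
  constructor <;> linarith

theorem lam_sub_mu (n m : ℕ) : gap n ≤ lam n m - mu n m := by
  unfold gap lam mu th
  split_ifs
  · rw [Real.cos_zero]
    refine (min_le_left _ _).trans (by linarith)
  · exact min_le_right _ _

theorem lam_le (n m : ℕ) : lam n m ≤ 2 := by
  unfold lam
  linarith [Real.cos_le_one (th n m)]

theorem le_lam (n m : ℕ) : Real.sqrt 2 ≤ lam n m := by
  have hn : (0 : ℝ) ≤ n := Nat.cast_nonneg n
  have hpi := Real.pi_pos
  have h4 : Real.sqrt 2 = 2 * Real.cos (Real.pi / 4) := by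
    rw [Real.cos_pi_div_four]
    ring
  rw [h4]
  unfold lam th
  split_ifs
  · rw [Real.cos_zero]
    linarith [Real.cos_le_one (Real.pi / 4)]
  · have : Real.cos (Real.pi / 4) ≤ Real.cos (Real.pi / (n + 4)) := by
      apply Real.cos_le_cos_of_nonneg_of_le_pi (by positivity)
      · linarith
      · apply div_le_div_of_nonneg_left hpi.le (by norm_num) (by linarith)
    linarith

variable {n s : ℕ}

open Classical in
/-- the squared norm of the statistic -/
noncomputable def wn (x : Config (Fin (n + 4)) s) (χ : Fin (n + 4) → Fin s) : ℝ :=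
  if h : ∃ u, IsPhase χ u then ‖WW x h.choose‖ ^ 2 else 0

theorem wn_eq (hU : S_PHU) (x : Config (Fin (n + 4)) s) (χ : Fin (n + 4) → Fin s)
    (u : Fin (n + 4) → ℂ) (hu : IsPhase χ u) : wn x χ = ‖WW x u‖ ^ 2 := by
  have h : ∃ u, IsPhase χ u := ⟨u, hu⟩
  unfold wn
  rw [dif_pos h]
  obtain ⟨c, hc, hcu⟩ := hU n s χ u h.choose hu h.choose_spec
  have : WW x h.choose = c * WW x u := by
    unfold WW
    rw [mul_sum]
    refine sum_congr rfl fun v _ => ?_
    rw [hcu v]
    ring
  rw [this, norm_mul, hc, one_mul]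

/-- the growth constant -/
noncomputable def RR (n : ℕ) : ℝ := 1 + 8 / gap n

theorem one_le_RR (n : ℕ) : 1 ≤ RR n := by
  have := gap_pos n
  unfold RR
  have : 0 < 8 / gap n := by positivity
  linarith

/-- the bracket -/
noncomputable def HH (n : ℕ) (Z T w : ℝ) : ℝ :=
  Psi Z T w + Real.log (2 * (n + 4)) + gap n / 4 * Real.log T

/-- the function of a configuration with a colouring -/
noncomputable def FF (x : Config (Fin (n + 4)) s) (χ : Fin (n + 4) → Fin s) : ℝ :=
  RR n ^ (cuts χ) * HH n (ZZ x) (total x) (wn x χ)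

open Classical in
/-- the Lyapunov function -/
noncomputable def ff (x : Config (Fin (n + 4)) s) : ℝ :=
  if AllMono x then 0 else max 0 (sInf (FF x '' {χ | Compat x χ}))

theorem ff_nonneg (x : Config (Fin (n + 4)) s) : 0 ≤ ff x := by
  unfold ff
  split_ifs
  · exact le_rfl
  · exact le_max_left _ _

theorem exists_compat {x : Config (Fin (n + 4)) s} (hx : Good x) : ∃ χ, Compat x χ := by
  classical
  obtain ⟨v0, c0, h0⟩ := (total_pos_iff x).1 hx.2
  refine ⟨fun v => if h : ∃ c, 0 < x v c then h.choose else c0, fun v c hc => ?_⟩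
  have h : ∃ c, 0 < x v c := ⟨c, hc⟩
  simp only
  rw [dif_pos h]
  exact hx.1 v c _ hc h.choose_spec

theorem total_eq (x : Config (Fin (n + 4)) s) : (total x : ℝ) = ∑ v, (nb x v : ℝ) := by
  unfold total nb
  push_cast
  rfl

theorem ZZ_ge (x : Config (Fin (n + 4)) s) : (total x : ℝ) ^ 2 / (n + 4) ≤ ZZ x := by
  rw [div_le_iff₀ (by positivity), total_eq]
  have h := sq_sum_le_card_mul_sum_sq (s := (univ : Finset (Fin (n + 4))))
    (f := fun v => (nb x v : ℝ))
  rw [card_univ, Fintype.card_fin] at h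
  push_cast at h
  unfold ZZ
  linarith

theorem ZZ_le (x : Config (Fin (n + 4)) s) : ZZ x ≤ (total x : ℝ) ^ 2 := by
  have h : ∀ v, (nb x v : ℝ) ≤ total x := fun v => by
    rw [total_eq]
    exact single_le_sum (f := fun v => (nb x v : ℝ)) (fun v _ => Nat.cast_nonneg _) (mem_univ v)
  calc ZZ x ≤ ∑ v, (total x : ℝ) * nb x v := by
        unfold ZZ
        refine sum_le_sum fun v _ => ?_
        rw [sq]
        exact mul_le_mul_of_nonneg_right (h v) (Nat.cast_nonneg _)
    _ = (total x : ℝ) ^ 2 := by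
        rw [← mul_sum, ← total_eq]
        ring

theorem WW_le (x : Config (Fin (n + 4)) s) (u : Fin (n + 4) → ℂ) (hu : ∀ v, ‖u v‖ = 1) :
    ‖WW x u‖ ≤ total x := by
  rw [total_eq]
  unfold WW
  refine (norm_sum_le _ _).trans (sum_le_sum fun v _ => ?_)
  rw [norm_mul, hu v, mul_one, Complex.norm_natCast]

theorem compat_cut {x : Config (Fin (n + 4)) s} {χ : Fin (n + 4) → Fin s} (h : Compat x χ)
    (hm : ¬ AllMono x) : ∃ v w, χ v ≠ χ w := by
  by_contra hcon
  push Not at hcon
  apply hm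
  intro u v c d hc hd
  rw [h u c hc, h v d hd]
  exact hcon u v

theorem MM_le (hCUT : S_CUT) (hQF : S_QF) {x : Config (Fin (n + 4)) s}
    {χ : Fin (n + 4) → Fin s} (h : Compat x χ) (hm : ¬ AllMono x) :
    MM x χ ≤ mu n (cuts χ) * ZZ x := by
  classical
  obtain ⟨j, hj1, hj2, hj3⟩ := hCUT n s χ (compat_cut h hm)
  have key := hQF n (if Even (cuts χ) then n + 4 else n + 3) (fun v => χ v = χ (v + 1))
    (fun v => (nb x v : ℝ)) j (fun v => Nat.cast_nonneg _) hj1 hj2 (fun v hv => (hj3 v).1 hv)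
    (fun v hv => (hj3 v).2 hv)
  unfold MM mu ZZ
  have e : ∀ v, tau χ v = if χ v = χ (v + 1) then (1 : ℝ) else -1 := fun v => by
    unfold tau
    split_ifs <;> rfl
  simp only [e]
  refine key.trans (le_of_eq ?_)
  split_ifs
  · push_cast
    rfl
  · push_cast
    rfl


theorem wn_le (hE : S_PHE) (hU : S_PHU) (x : Config (Fin (n + 4)) s)
    (χ : Fin (n + 4) → Fin s) : wn x χ ≤ (total x : ℝ) ^ 2 := by
  obtain ⟨u, hu⟩ := hE n s χ
  rw [wn_eq hU x χ u hu]
  have := WW_le x u hu.1
  gcongr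

theorem wn_nonneg (x : Config (Fin (n + 4)) s) (χ : Fin (n + 4) → Fin s) : 0 ≤ wn x χ := by
  unfold wn
  split_ifs
  · positivity
  · exact le_rfl

theorem HH_nonneg {Z T w : ℝ} (hT : 5000 ≤ T) (hZ : T ^ 2 / (n + 4) ≤ Z)
    (hw : w + 1000 * T ≤ 2 * T ^ 2) (hw0 : 0 ≤ w) : gap n / 4 * Real.log T ≤ HH n Z T w := by
  have h := psi_lower (κ := (n : ℝ) + 4) hT (by positivity) hZ hw hw0
  unfold HH
  linarith

theorem HH_upper {Z T w : ℝ} (hT : 1 ≤ T) (hZ0 : 0 < Z) (hZ : Z ≤ T ^ 2) (hw0 : 0 ≤ w) :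
    HH n Z T w ≤ (1 + gap n / 4) * Real.log T + (6100 + Real.log (2 * (n + 4))) := by
  have h := psi_upper hT hZ0 hZ hw0
  unfold HH
  linarith

theorem ff_le {x : Config (Fin (n + 4)) s} (hx : ¬ AllMono x) {χ : Fin (n + 4) → Fin s}
    (h : Compat x χ) (h0 : 0 ≤ FF x χ) : ff x ≤ FF x χ := by
  classical
  unfold ff
  rw [if_neg hx]
  refine max_le h0 ?_
  have hfin : (FF x '' {χ | Compat x χ}).Finite := (Set.toFinite _).image _
  exact csInf_le hfin.bddBelow ⟨χ, h, rfl⟩

theorem ff_eq {x : Config (Fin (n + 4)) s} (hx : Good x) (hm : ¬ AllMono x) :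
    ∃ χ, Compat x χ ∧ FF x χ ≤ ff x := by
  classical
  have hfin : (FF x '' {χ | Compat x χ}).Finite := (Set.toFinite _).image _
  obtain ⟨χ0, hχ0⟩ := exists_compat hx
  have hne : (FF x '' {χ | Compat x χ}).Nonempty := ⟨_, ⟨χ0, hχ0, rfl⟩⟩
  obtain ⟨χ, h1, h2⟩ := hne.csInf_mem hfin
  refine ⟨χ, h1, ?_⟩
  rw [h2]
  unfold ff
  rw [if_neg hm]
  exact le_max_right _ _

/-- the threshold for the number of balls -/
noncomputable def thr (n : ℕ) : ℝ :=
  200000 + Real.exp (6100 + Real.log (2 * (n + 4))) + 2 * (n + 4) / gap n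

theorem step_le (hE : S_PHE) (hU : S_PHU) (hST : S_ST) (hTZ : S_TZ) (hNB : S_NB)
    {x : Config (Fin (n + 4)) s} (hx : Good x) {χ : Fin (n + 4) → Fin s} (h : Compat x χ)
    (hN : thr n ≤ total x) (u : Fin (n + 4) → ℂ) (hu : IsPhase χ u) {v : Fin (n + 4)}
    {c : Fin s} (hc : 0 < x v c) :
    ff (step (SimpleGraph.cycleGraph (n + 4)) x v c) ≤ RR n ^ (cuts χ) *
      HH n (ZZ (step (SimpleGraph.cycleGraph (n + 4)) x v c))
        (total (step (SimpleGraph.cycleGraph (n + 4)) x v c))
        (‖WW x u + lam n (cuts χ) * u v‖ ^ 2) := by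
  have hg := gap_pos n
  have hR := one_le_RR n
  set x' := step (SimpleGraph.cycleGraph (n + 4)) x v c with hx'
  have hT := (hTZ n s x χ h hx.2).1 v c hc
  rw [← hx', abs_le] at hT
  have hexp := Real.exp_pos (6100 + Real.log (2 * ((n : ℝ) + 4)))
  have hdiv : 0 < 2 * ((n : ℝ) + 4) / gap n := by positivity
  have hN' : 200000 + Real.exp (6100 + Real.log (2 * ((n : ℝ) + 4))) +
    2 * ((n : ℝ) + 4) / gap n ≤ total x := hN
  have hT1 : (199998 : ℝ) ≤ total x' := by linarith
  have hT2 : Real.exp (6100 + Real.log (2 * ((n : ℝ) + 4))) ≤ total x' := by linarith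
  have hlog : 6100 + Real.log (2 * ((n : ℝ) + 4)) ≤ Real.log (total x') := by
    rw [Real.le_log_iff_exp_le (by linarith)]
    exact hT2
  have hlog2 : 0 ≤ Real.log (2 * ((n : ℝ) + 4)) :=
    Real.log_nonneg (by have : (0 : ℝ) ≤ n := Nat.cast_nonneg n; linarith)
  have hlog0 : 0 ≤ Real.log (total x') := by linarith
  have hgood : Good x' := step_good _ hx hc
  have hwle : ‖WW x u + lam n (cuts χ) * u v‖ ^ 2 + 1000 * (total x' : ℝ) ≤
      2 * (total x' : ℝ) ^ 2 := by
    have h1 := WW_le x u hu.1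
    have h2 : ‖WW x u + lam n (cuts χ) * u v‖ ≤ total x + 2 := by
      refine (norm_add_le _ _).trans ?_
      rw [norm_mul, hu.1 v, mul_one, Complex.norm_real, Real.norm_eq_abs, abs_of_nonneg]
      · linarith [lam_le n (cuts χ)]
      · exact (Real.sqrt_nonneg 2).trans (le_lam n (cuts χ))
    have h3 : ‖WW x u + lam n (cuts χ) * u v‖ ^ 2 ≤ ((total x' : ℝ) + 4) ^ 2 := by
      gcongr
      linarith
    nlinarith
  have hlow := HH_nonneg (n := n) (by linarith) (ZZ_ge x') hwle (by positivity)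
  have hHH0 : 0 ≤ HH n (ZZ x') (total x') (‖WW x u + lam n (cuts χ) * u v‖ ^ 2) :=
    le_trans (by positivity) hlow
  by_cases hm : AllMono x'
  · unfold ff
    rw [if_pos hm]
    positivity
  · obtain ⟨hle, heq⟩ := hST n s x χ v c h hc
    have hcomp : Compat x' (upd x χ v) := (hNB n s x χ v v c h hc).2.2.2.2
    have hZ0 : 0 < ZZ x' := lt_of_lt_of_le (by positivity) (ZZ_ge x')
    have hw' : wn x' (upd x χ v) + 1000 * (total x' : ℝ) ≤ 2 * (total x' : ℝ) ^ 2 := by
      have := wn_le hE hU x' (upd x χ v)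
      nlinarith
    have hlow' := HH_nonneg (n := n) (by linarith) (ZZ_ge x') hw' (wn_nonneg _ _)
    have hF0 : 0 ≤ FF x' (upd x χ v) := by
      unfold FF
      have : 0 ≤ HH n (ZZ x') (total x') (wn x' (upd x χ v)) := le_trans (by positivity) hlow'
      positivity
    refine (ff_le hm hcomp hF0).trans ?_
    rcases hle.lt_or_eq with hlt | he
    · have hup := HH_upper (n := n) (by linarith) hZ0 (ZZ_le x') (wn_nonneg x' (upd x χ v))
      unfold FF
      calc RR n ^ cuts (upd x χ v) * HH n (ZZ x') (total x') (wn x' (upd x χ v)) ≤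
            RR n ^ (cuts χ - 1) * (RR n * (gap n / 4 * Real.log (total x'))) := by
            apply mul_le_mul
            · exact pow_le_pow_right₀ hR (by omega)
            · refine hup.trans ?_
              have : RR n * (gap n / 4 * Real.log (total x')) =
                  (gap n / 4 + 2) * Real.log (total x') := by
                unfold RR
                field_simp
                ring
              rw [this]
              nlinarith
            · exact le_trans (by positivity) hlow'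
            · positivity
        _ = RR n ^ (cuts χ) * (gap n / 4 * Real.log (total x')) := by
            obtain ⟨q, hq⟩ : ∃ q, cuts χ = q + 1 := ⟨cuts χ - 1, by omega⟩
            rw [hq, Nat.add_sub_cancel, pow_succ]
            ring
        _ ≤ _ := by
            apply mul_le_mul_of_nonneg_left hlow
            positivity
    · obtain ⟨u', hu', hW⟩ := heq he u hu
      unfold FF
      rw [he, wn_eq hU x' _ u' hu', hW]

theorem main_drift (hE : S_PHE) (hU : S_PHU) (hST : S_ST) (hTZ : S_TZ) (hNB : S_NB)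
    (hCUT : S_CUT) (hQF : S_QF) (hLD : S_LD) (hQ : S_Q) (x : Config (Fin (n + 4)) s)
    (hx : Good x) (hm : ¬ AllMono x) (hN : thr n ≤ total x) :
    Pop (SimpleGraph.cycleGraph (n + 4)) ff x ≤ ff x - gap n / 2 / (total x : ℝ) := by
  obtain ⟨χ, hχ, hF⟩ := ff_eq hx hm
  obtain ⟨u, hu⟩ := hE n s χ
  have hg := gap_pos n
  have hR := one_le_RR n
  have hexp := Real.exp_pos (6100 + Real.log (2 * ((n : ℝ) + 4)))
  have hdiv : 0 < 2 * ((n : ℝ) + 4) / gap n := by positivity
  have hN' : 200000 + Real.exp (6100 + Real.log (2 * ((n : ℝ) + 4))) +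
    2 * ((n : ℝ) + 4) / gap n ≤ total x := hN
  have hTp : (0 : ℝ) < total x := by linarith
  have hlam := lam_sub_mu n (cuts χ)
  set T : ℝ := (total x : ℝ) with hTdef
  set G := SimpleGraph.cycleGraph (n + 4) with hG
  have hRm : 1 ≤ RR n ^ (cuts χ) := one_le_pow₀ hR
  -- auxiliary families
  let p : Fin (n + 4) × Fin s → ℝ := fun i => (x i.1 i.2 : ℝ) / T
  let T' : Fin (n + 4) × Fin s → ℝ := fun i => if 0 < x i.1 i.2 then (total (step G x i.1 i.2) : ℝ) else T
  let Z' : Fin (n + 4) × Fin s → ℝ := fun i => if 0 < x i.1 i.2 then ZZ (step G x i.1 i.2) else 1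
  have hp0 : ∀ i, 0 ≤ p i := fun i => by positivity
  have hp1 : ∑ i, p i = 1 := by
    rw [Fintype.sum_prod_type]
    simp only [p]
    rw [← sum_congr rfl fun v _ => sum_div _ _ _, ← sum_div, div_eq_one_iff_eq hTp.ne']
    rw [hTdef]
    unfold total
    push_cast
    rfl
  have hpu : ∑ i, (p i : ℂ) * u i.1 = WW x u / T := by
    rw [Fintype.sum_prod_type]
    unfold WW
    rw [sum_div]
    refine sum_congr rfl fun v _ => ?_
    have e : ∀ c, ((p (v, c) : ℝ) : ℂ) * u (v, c).1 = ((x v c : ℂ) / (T : ℂ)) * u v := fun c => by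
      simp only [p]
      push_cast
      rfl
    rw [sum_congr rfl fun c _ => e c, ← sum_mul, ← sum_div]
    unfold nb
    push_cast
    ring
  have hTT : ∀ i, |T' i - T| ≤ 2 := by
    intro i
    simp only [T']
    split_ifs with h
    · exact (hTZ n s x χ hχ hx.2).1 i.1 i.2 h
    · simp
  have hZpos : ∀ i, 0 < Z' i := by
    intro i
    simp only [Z']
    split_ifs with h
    · have h1 : 0 < total (step G x i.1 i.2) := (step_good _ hx h).2
      have h2 : (0 : ℝ) < total (step G x i.1 i.2) := by exact_mod_cast h1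
      exact lt_of_lt_of_le (by positivity) (ZZ_ge _)
    · exact one_pos
  have hpZ : ∑ i, p i * Z' i = ZZ x + 2 * MM x χ / T + 2 := by
    rw [← (hTZ n s x χ hχ hx.2).2, Fintype.sum_prod_type]
    refine sum_congr rfl fun v _ => sum_congr rfl fun c _ => ?_
    simp only [p, Z']
    split_ifs with h
    · rfl
    · have : x v c = 0 := by omega
      rw [this]
      simp
  have hMM := MM_le hCUT hQF hχ hm
  have hpZ2 : ∑ i, p i * Z' i ≤ ZZ x + 2 * (mu n (cuts χ) * ZZ x) / T + 2 := by
    rw [hpZ]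
    have : 2 * MM x χ / T ≤ 2 * (mu n (cuts χ) * ZZ x) / T := by gcongr
    linarith
  have key := drift hLD hQ p T (lam n (cuts χ)) (mu n (cuts χ)) (ZZ x) ((n : ℝ) + 4) (WW x u)
    (fun i => u i.1) T' Z' hp0 hp1 (by linarith) (le_lam _ _) (lam_le _ _) (fun i => hu.1 i.1)
    hpu hTT (by positivity) (ZZ_ge x) hZpos hpZ2
  have key2 := log_mean p T' T 2 hp0 hp1 hTp (fun i => by
      have := hTT i
      rw [abs_le] at this
      linarith) (by
      calc ∑ i, p i * T' i ≤ ∑ i, p i * (T + 2) := sum_le_sum fun i _ => by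
            have := hTT i
            rw [abs_le] at this
            exact mul_le_mul_of_nonneg_left (by linarith) (hp0 i)
        _ = T + 2 := by rw [← sum_mul, hp1, one_mul])
  have hPop : Pop G ff x ≤ ∑ i, p i * (RR n ^ (cuts χ) *
      HH n (Z' i) (T' i) (‖WW x u + lam n (cuts χ) * u i.1‖ ^ 2)) := by
    unfold Pop
    rw [Fintype.sum_prod_type]
    refine sum_le_sum fun v _ => sum_le_sum fun c _ => ?_
    simp only [p, T', Z']
    split_ifs with h
    · exact mul_le_mul_of_nonneg_left (step_le hE hU hST hTZ hNB hx hχ hN u hu h)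
        (by positivity)
    · have : x v c = 0 := by omega
      rw [this]
      simp
  have hsum : ∑ i, p i * (RR n ^ (cuts χ) *
      HH n (Z' i) (T' i) (‖WW x u + lam n (cuts χ) * u i.1‖ ^ 2)) =
      RR n ^ (cuts χ) * (∑ i, p i * Psi (Z' i) (T' i)
        (‖WW x u + lam n (cuts χ) * u i.1‖ ^ 2) + Real.log (2 * (n + 4)) +
        gap n / 4 * ∑ i, p i * Real.log (T' i)) := by
    have e : ∀ i, p i * (RR n ^ (cuts χ) *
      HH n (Z' i) (T' i) (‖WW x u + lam n (cuts χ) * u i.1‖ ^ 2)) =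
      RR n ^ (cuts χ) * (p i * Psi (Z' i) (T' i)
        (‖WW x u + lam n (cuts χ) * u i.1‖ ^ 2) + p i * Real.log (2 * (n + 4)) +
        gap n / 4 * (p i * Real.log (T' i))) := fun i => by
      unfold HH
      ring
    simp only [e]
    rw [← mul_sum, sum_add_distrib, sum_add_distrib, ← sum_mul, hp1, one_mul, ← mul_sum]
  have hFF : FF x χ = RR n ^ (cuts χ) * (Psi (ZZ x) T (‖WW x u‖ ^ 2) +
      Real.log (2 * (n + 4)) + gap n / 4 * Real.log T) := by
    unfold FF HH
    rw [wn_eq hU x χ u hu]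
  have hk : 2 * ((n : ℝ) + 4) / T ^ 2 ≤ gap n / T := by
    rw [div_le_div_iff₀ (by positivity) hTp]
    have h1 : 2 * ((n : ℝ) + 4) ≤ gap n * T := by
      have : 2 * ((n : ℝ) + 4) / gap n ≤ T := by linarith
      rw [div_le_iff₀ hg] at this
      linarith
    nlinarith
  have hlm : 2 * mu n (cuts χ) / T - 2 * lam n (cuts χ) / T ≤ - (2 * gap n / T) := by
    rw [← sub_div, ← neg_div]
    gcongr
    linarith
  have hb : (∑ i, p i * Psi (Z' i) (T' i) (‖WW x u + lam n (cuts χ) * u i.1‖ ^ 2) +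
        Real.log (2 * (n + 4)) + gap n / 4 * ∑ i, p i * Real.log (T' i)) ≤
      (Psi (ZZ x) T (‖WW x u‖ ^ 2) + Real.log (2 * (n + 4)) + gap n / 4 * Real.log T) -
        gap n / 2 / T := by
    have h1 : gap n / 4 * ∑ i, p i * Real.log (T' i) ≤ gap n / 4 * (Real.log T + 2 / T) :=
      mul_le_mul_of_nonneg_left key2 (by positivity)
    have h2 : gap n / 4 * (Real.log T + 2 / T) = gap n / 4 * Real.log T + gap n / 2 / T := by
      field_simp
      ring
    have h3 : 2 * gap n / T = 2 * (gap n / 2 / T) + gap n / T := by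
      field_simp
      ring
    linarith
  calc Pop G ff x ≤ _ := hPop
    _ = _ := hsum
    _ ≤ RR n ^ (cuts χ) * ((Psi (ZZ x) T (‖WW x u‖ ^ 2) + Real.log (2 * (n + 4)) +
        gap n / 4 * Real.log T) - gap n / 2 / T) := mul_le_mul_of_nonneg_left hb (by positivity)
    _ = FF x χ - RR n ^ (cuts χ) * (gap n / 2 / T) := by rw [hFF]; ring
    _ ≤ ff x - gap n / 2 / T := by
        have : 0 ≤ gap n / 2 / T := by positivity
        nlinarith

theorem final (hE : S_PHE) (hU : S_PHU) (hST : S_ST) (hTZ : S_TZ) (hNB : S_NB)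
    (hCUT : S_CUT) (hQF : S_QF) (hLD : S_LD) (hQ : S_Q) (n s : ℕ) :
    InClass (SimpleGraph.cycleGraph (n + 4)) s := by
  have hg := gap_pos n
  refine criterion _ (SimpleGraph.cycleGraph_connected (n := n + 3)) ff ff_nonneg (gap n / 2) (by positivity)
    ⌈thr n⌉₊ fun x hx hm hN => main_drift hE hU hST hTZ hNB hCUT hQF hLD hQ x hx hm ?_
  exact (Nat.le_ceil _).trans (by exact_mod_cast hN)

end Pool.Agent.Y381.UC
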